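import Pool.Agent.James.Final
import Pool.Agent.James.Restr

/-!
James's conjecture is false for the quantum characteristic `e = 3`: the case `p = 13`, `n = 27`.

The theorem compares the decomposition numbers `[S^κ : D^μ]`, `κ = (6,4,3,3,3,2,2,2,1,1)`, of the
Hecke algebra `H_27` over an arbitrary field of characteristic `13` (with `q` of quantum
characteristic `3`) and over an arbitrary field of characteristic `0`, for instance the complex
numbers (with `ω` of quantum characteristic `3`, that is a primitive cube root of unity).
They differ for some `3`-restricted `μ`; as `27 < 3 * 13`, the conjecture fails.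

The library (`Pool/Agent/James`) also proves that the modules `D^μ` which are not zero are simple,
pairwise non isomorphic, that every finite dimensional simple module is one of them
(`All.subt`, `All.noniso`, `All.comp`) and that they are zero unless `μ` is restricted
(`Rs.restr`), that `DecNum` has exactly one value (`Final.decNum_spec`, `Final.decNum_unique`) and
that the Hecke algebra acts on the word modules as stated (`Final.action_gen`).
-/

set_option autoImplicit false

namespace Pool.Agent.Results.MP_36c429_al.JamesFailsE3

open Pool.Agent.James Pool.Agent.James.Final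

/-- There is an algebraically closed field of characteristic `13` with an element of quantum
characteristic `3`. -/
theorem exists_field :
    ∃ (F : Type) (_ : Field F) (_ : IsAlgClosed F) (_ : CharP F 13) (q : F), IsQChar 3 q := by
  have : Fact (Nat.Prime 13) := ⟨by norm_num⟩
  have : CharP (AlgebraicClosure (ZMod 13)) 13 :=
    charP_of_injective_algebraMap (algebraMap (ZMod 13) (AlgebraicClosure (ZMod 13))).injective 13
  refine ⟨AlgebraicClosure (ZMod 13), inferInstance, inferInstance, inferInstance, 3, ?_, ?_, ?_⟩
  · norm_num
  · have h : ((13 : ℕ) : AlgebraicClosure (ZMod 13)) = 0 := CharP.cast_eq_zero _ 13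
    have h1 : (∑ i ∈ Finset.range 3, (3 : AlgebraicClosure (ZMod 13)) ^ i) =
        ((13 : ℕ) : AlgebraicClosure (ZMod 13)) := by
      rw [Finset.sum_range_succ, Finset.sum_range_succ, Finset.sum_range_succ,
        Finset.sum_range_zero]
      norm_num
    rw [h1, h]
  · intro m h0 h3
    have hm : m = 1 ∨ m = 2 := by omega
    rcases hm with rfl | rfl
    · simp
    · have h1 : (∑ i ∈ Finset.range 2, (3 : AlgebraicClosure (ZMod 13)) ^ i) =
          ((4 : ℕ) : AlgebraicClosure (ZMod 13)) := by
        rw [Finset.sum_range_succ, Finset.sum_range_succ, Finset.sum_range_zero]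
        norm_num
      rw [h1, Ne, CharP.cast_eq_zero_iff (AlgebraicClosure (ZMod 13)) 13]
      norm_num

/-- There is an element of quantum characteristic `3` in the complex numbers. -/
theorem exists_omega : ∃ ω : ℂ, IsQChar 3 ω := by
  obtain ⟨ω, hω⟩ := IsAlgClosed.exists_root
    (Polynomial.X ^ 2 + Polynomial.X + 1 : Polynomial ℂ) (by
      have : (Polynomial.X ^ 2 + Polynomial.X + 1 : Polynomial ℂ).degree = 2 := by
        compute_degree!
      rw [this]
      norm_num)
  have h1 : ω ^ 2 + ω + 1 = 0 := by simpa [Polynomial.IsRoot] using hω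
  refine ⟨ω, by norm_num, ?_, ?_⟩
  · simp only [Finset.sum_range_succ, Finset.sum_range_zero, pow_zero, pow_one]
    linear_combination h1
  · intro m h0 h3
    have hm : m = 1 ∨ m = 2 := by omega
    rcases hm with rfl | rfl
    · simp
    · intro h2
      simp only [Finset.sum_range_succ, Finset.sum_range_zero, pow_zero, pow_one] at h2
      have h4 : ω = -1 := by linear_combination h2
      rw [h4] at h1
      norm_num at h1

/-- **James's conjecture fails for `e = 3`, `p = 13`, `n = 27`.** -/
theorem result :
    27 < 3 * 13 ∧
    (∃ (F : Type) (_ : Field F) (_ : IsAlgClosed F) (_ : CharP F 13) (q : F), IsQChar 3 q) ∧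
    (∃ ω : ℂ, IsQChar 3 ω) ∧
    ∀ (F : Type) [Field F] [CharP F 13] (q : F), IsQChar 3 q →
      ∀ (C : Type) [Field C] [CharZero C] (ω : C), IsQChar 3 ω →
        ∃ μ : Ptn 27, (∀ i, μ.part i < μ.part (i + 1) + 3) ∧
          ∃ a b : ℕ, a ≠ b ∧ DecNum F q kappa μ a ∧ DecNum C ω kappa μ b := by
  refine ⟨by norm_num, exists_field, exists_omega, ?_⟩
  intro F _ _ q hq C _ _ ω hω
  have hq' := root_of_qchar hq
  have hω' := root_of_qchar hω
  obtain ⟨μ, h1, h2⟩ := main All.noniso All.subt All.dimD All.ind All.bas All.comp All.certOut
    F q hq' C ω hω'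
  refine ⟨μ, ?_, decNum F q kappa μ, decNum C ω kappa μ, h1, decNum_spec F q kappa μ,
    decNum_spec C ω kappa μ⟩
  rcases h2 with h2 | h2
  · exact Rs.restr F q 3 27 μ (ne_zero_of_root hq') (one_add_ne_of_root hq') hq h2
  · exact Rs.restr C ω 3 27 μ (ne_zero_of_root hω') (one_add_ne_of_root hω') hω h2

end Pool.Agent.Results.MP_36c429_al.JamesFailsE3
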